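import Mathlib
import Pool.Agent.Lib.MP_f88263_an.Defs
import Pool.Agent.Lib.MP_f88263_an.Single

/-!
MP_f88263_an, Q2: for no `η ∈ (0,1)` is the norm of `T` on `L^2(w)` controlled by
`[w]_{A_2^η(μ)}`. There are one measure `μ` and one operator `T` such that for every `η ∈ (0,1)`
some weight has `[w]_{A_2^η(μ)} ≤ 1` while `T` is unbounded on `L^2(w)`.
-/

open MeasureTheory Metric
open Pool.Agent.Lib.MP_f88263_an

namespace Pool.Agent.Results.MP_f88263_an.EtaFails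

theorem result (d : ℕ) (hd : 1 ≤ d) :
    ∃ (C : ℝ) (μ : Measure (EuclideanSpace ℝ (Fin d)))
      (K : EuclideanSpace ℝ (Fin d) → EuclideanSpace ℝ (Fin d) → ℝ) (T : L2Operator μ),
      0 < C ∧ IsAdmissibleMeasure d C μ ∧ (∀ x r, 0 < r → 0 < μ (ball x r)) ∧
      (∀ δ : ℝ, 0 < δ → δ ≤ 1 → IsCZKernel d δ C K) ∧ IsAssociated T K ∧ T.norm ≤ 1 ∧
      ∀ η : ℝ, 0 < η → η < 1 → ∃ w : EuclideanSpace ℝ (Fin d) → ℝ,
        IsWeight μ w ∧ a2Char d η μ w ≤ 1 ∧ weightedOpNorm T w = ⊤ :=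
  main_single d hd

end Pool.Agent.Results.MP_f88263_an.EtaFails
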