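import Mathlib
import Pool.Agent.Lib.MP_f88263_an.A2.Defs
import Pool.Agent.Lib.MP_f88263_an.A2.Final

/-!
MP_f88263_an, Q1: the linear `A_2` bound for Calderón-Zygmund operators with respect to measures
of polynomial growth, in terms of the characteristic `[w]_{A_2^0(μ)}` over all balls. The problem's
case is `n = d`.
-/

open MeasureTheory
open Pool.Agent.Lib.MP_f88263_an.Q1

namespace Pool.Agent.Results.MP_f88263_an.LinearA2

theorem result (𝕜 : Type) [RCLike 𝕜] (d n : ℕ) (δ C₀ C₁ C₂ : ℝ) (hδ : 0 < δ) :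
    ∃ C : ℝ, ∀ (μ : Measure (EuclideanSpace ℝ (Fin d)))
      (K : EuclideanSpace ℝ (Fin d) → EuclideanSpace ℝ (Fin d) → 𝕜)
      (T : L2Operator 𝕜 μ) (w : EuclideanSpace ℝ (Fin d) → ℝ),
      HasGrowth n C₀ μ → IsCZKernel n δ C₁ K → IsAssociated T K → T.norm ≤ C₂ → IsWeight μ w →
      T.WeightedBound w (ENNReal.ofReal C * a2Char μ w) :=
  Pool.Agent.Lib.MP_f88263_an.A2.main 𝕜 d n δ C₀ C₁ C₂ hδ

end Pool.Agent.Results.MP_f88263_an.LinearA2
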